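import Mathlib
import Pool.Agent.R500.MH.Final

set_option autoImplicit false

/-!
# Amplitudes with a positive proportion of exponents: the Hausdorff dimension

For real `β > 0` and a prime `p` let `W β p` be the `p`-rough part (the product, with multiplicity,
of the prime factors larger than `p`) of the largest integer below `β * 2 ^ p`, and let `M β n` be
the number of primes `p ≤ n` for which `W β p` is prime.  For `β = 1` this is the number of primes
`p ≤ n` for which `2 ^ p - 1` is prime.  For Lebesgue almost every `β` it is known that `M β n` is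
asymptotic to `(e ^ γ / log 2) log n`.

We prove that for `0 < s < t < 1` there is `c > 0` such that in every interval the set of the `β`
with `M β n ≥ c π(n)` for all large `n` and `limsup M β n / π(n) ≥ 1 - t` has Hausdorff dimension at
least `s`.  So in every interval the set of the `β` with `liminf M β n / π(n) > 0` and
`limsup M β n / π(n) ≥ 1 - t` has dimension at least `t`, and the set of the `β` for which a positive
proportion of all primes are exponents, at every large scale, has Hausdorff dimension one.

The proof uses primes in short intervals (a theorem of the type of Hoheisel's).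
-/

namespace Pool.Agent.Results.MP_9b2bac_nt.DensityDimension

open Filter Topology Set
open Pool.Agent.R500.MG (W M M_one)

lemma M_eq (β : ℝ) (n : ℕ) : M β n = Pool.Agent.R500.MH.M (fun y => ⌈y⌉₊ - 1) 2 β n := by
  unfold Pool.Agent.R500.MG.M Pool.Agent.R500.MH.M Pool.Agent.R500.MG.W Pool.Agent.R500.MH.W
  simp only [Nat.cast_ofNat]

/-- **A positive proportion of exponents: the Hausdorff dimension.** -/
theorem result :
    (∀ n : ℕ, M 1 n =
      ((Finset.range (n + 1)).filter (fun p => p.Prime ∧ (2 ^ p - 1).Prime)).card) ∧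
    (∀ s t : ℝ, 0 < s → s < t → t < 1 → ∃ c : ℝ, 0 < c ∧ ∀ u v : ℝ, 0 ≤ u → u < v →
      ENNReal.ofReal s ≤ dimH {β : ℝ | β ∈ Set.Ioo u v ∧
        (∀ᶠ n : ℕ in atTop, c * Nat.primeCounting n ≤ M β n) ∧
        (∀ ε : ℝ, 0 < ε → ∃ᶠ n : ℕ in atTop, (1 - t - ε) * Nat.primeCounting n < M β n)}) ∧
    (∀ t : ℝ, 0 < t → t ≤ 1 → ∀ u v : ℝ, 0 ≤ u → u < v →
      ENNReal.ofReal t ≤ dimH {β : ℝ | β ∈ Set.Ioo u v ∧
        (∃ c : ℝ, 0 < c ∧ ∀ᶠ n : ℕ in atTop, c * Nat.primeCounting n ≤ M β n) ∧
        (∀ ε : ℝ, 0 < ε → ∃ᶠ n : ℕ in atTop, (1 - t - ε) * Nat.primeCounting n < M β n)}) := by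
  refine ⟨M_one, fun s t hs hst ht => ?_, fun t _ ht1 u v hu huv => ?_⟩
  · have h := Pool.Agent.R500.MH.dim_density Pool.Agent.R500.MH.rnd_ceil (b := 2) (by norm_num)
      hs hst ht
    simp only [← M_eq] at h
    exact h
  · have h := Pool.Agent.R500.MH.dim_all Pool.Agent.R500.MH.rnd_ceil (b := 2) (by norm_num)
      ht1 hu huv
    simp only [← M_eq] at h
    exact h

end Pool.Agent.Results.MP_9b2bac_nt.DensityDimension
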