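import Mathlib
import Pool.Agent.R500.MG.Few

set_option autoImplicit false

/-!
# Amplitudes with finitely many exponents

For real `β > 0` and a prime `p` let `W β p` be the `p`-rough part (the product, with multiplicity,
of the prime factors larger than `p`) of the largest integer below `β * 2 ^ p`.  For `β = 1` it is
the Mersenne number `2 ^ p - 1`.  For Lebesgue almost every `β` the number of primes `p ≤ n` with
`W β p` prime is known to be asymptotic to `(e ^ γ / log 2) log n`.  We prove that nevertheless every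
open interval contains uncountably many `β` for which `W β p` is prime for only finitely many
primes `p`.  The proof uses large gaps between primes.
-/

namespace Pool.Agent.Results.MP_9b2bac_nt.FinitelyManyExponents

open Filter Topology Set
open Pool.Agent.R500.MG (W W_one OK windows build)

/-- the start of the construction -/
lemma start (T0 : ℕ) {u v : ℝ} (hu : 0 ≤ u) (huv : u < v) :
    ∃ z : ℕ × ℕ, OK T0 z ∧ u ≤ (z.2 : ℝ) / 2 ^ z.1 ∧ ((z.2 : ℝ) + 1) / 2 ^ z.1 < v := by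
  have h1 : Tendsto (fun t : ℕ => ((t : ℝ) ^ 4 / 2 ^ t)) atTop (𝓝 0) :=
    tendsto_pow_const_div_const_pow_of_one_lt 4 (by norm_num)
  have h2 := h1.eventually_lt_const (show (0 : ℝ) < (v - u) / 10 by linarith)
  obtain ⟨t, ht1, ht2⟩ := (h2.and (eventually_ge_atTop (max T0 1))).exists
  have ht0 : 1 ≤ t := (le_max_right _ _).trans ht2
  have h2t : (0 : ℝ) < 2 ^ t := by positivity
  rw [div_lt_iff₀ h2t] at ht1
  obtain ⟨q, hq, hq1, hq2⟩ := Nat.exists_prime_lt_and_le_two_mul (t ^ 2) (by positivity)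
  have hqr : (0 : ℝ) < (q : ℝ) ^ 2 := by
    have : (0 : ℝ) < q := by exact_mod_cast hq.pos
    positivity
  have hq4 : (q : ℝ) ^ 2 ≤ 4 * (t : ℝ) ^ 4 := by
    have h3 : q ^ 2 ≤ (2 * t ^ 2) ^ 2 := Nat.pow_le_pow_left hq2 2
    have h4 : ((q ^ 2 : ℕ) : ℝ) ≤ (((2 * t ^ 2) ^ 2 : ℕ) : ℝ) := by exact_mod_cast h3
    push_cast at h4
    calc (q : ℝ) ^ 2 ≤ (2 * (t : ℝ) ^ 2) ^ 2 := h4
      _ = 4 * (t : ℝ) ^ 4 := by ring
  set m := ⌊u * 2 ^ t / q ^ 2⌋₊ with hm
  have hm1 : (m : ℝ) * q ^ 2 ≤ u * 2 ^ t := by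
    have := Nat.floor_le (show 0 ≤ u * 2 ^ t / (q : ℝ) ^ 2 by positivity)
    rwa [le_div_iff₀ hqr] at this
  have hm2 : u * 2 ^ t < ((m : ℝ) + 1) * q ^ 2 := by
    have := Nat.lt_floor_add_one (u * 2 ^ t / (q : ℝ) ^ 2)
    rwa [div_lt_iff₀ hqr] at this
  refine ⟨(t, (m + 1) * q ^ 2), ⟨(le_max_left _ _).trans ht2, ?_, q, hq, hq1, dvd_mul_left _ _⟩,
    ?_, ?_⟩
  · have := hq.pos
    simp only
    positivity
  · simp only
    rw [le_div_iff₀ h2t]
    push_cast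
    exact hm2.le
  · simp only
    rw [div_lt_iff₀ h2t]
    push_cast
    have h5 : (1 : ℝ) ≤ (t : ℝ) ^ 4 := by
      have : (1 : ℝ) ≤ t := by exact_mod_cast ht0
      exact one_le_pow₀ this
    have h6 : ((m : ℝ) + 1) * q ^ 2 = m * q ^ 2 + q ^ 2 := by ring
    rw [h6]
    nlinarith

/-- **Every interval contains uncountably many amplitudes with finitely many exponents.** -/
theorem result :
    (∀ p : ℕ, p.Prime → W 1 p = 2 ^ p - 1) ∧
    (∀ u v : ℝ, 0 ≤ u → u < v →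
      ¬ {β : ℝ | β ∈ Set.Ioo u v ∧ {p : ℕ | p.Prime ∧ (W β p).Prime}.Finite}.Countable) := by
  refine ⟨fun p hp => W_one hp, fun u v hu huv hcount => ?_⟩
  obtain ⟨T0, _, hT0⟩ := windows
  obtain ⟨z, hz, hz1, hz2⟩ := start T0 hu huv
  set S := {β : ℝ | β ∈ Set.Ioo u v ∧ {p : ℕ | p.Prime ∧ (W β p).Prime}.Finite} with hS
  have key : ∀ s : ℕ → ℝ, ∃ β ∈ S, ∀ k, β ≠ s k := by
    intro s
    obtain ⟨β, h1, h2, h3, h4⟩ := build hT0 s z hz
    refine ⟨β, ⟨⟨lt_of_le_of_lt hz1 h1, lt_of_le_of_lt h2 hz2⟩, ?_⟩, h3⟩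
    refine (Set.finite_Iic z.1).subset fun p hp => ?_
    rw [Set.mem_Iic]
    by_contra hcon
    exact h4 p hp.1 (by omega) hp.2
  obtain ⟨β0, hβ0, _⟩ := key (fun _ => 0)
  obtain ⟨s, hs⟩ := hcount.exists_eq_range ⟨β0, hβ0⟩
  obtain ⟨β, hβ, hne⟩ := key s
  rw [hs] at hβ
  obtain ⟨k, hk⟩ := hβ
  exact hne k hk.symm

end Pool.Agent.Results.MP_9b2bac_nt.FinitelyManyExponents
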