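import Mathlib
import Pool.Agent.R500.MG.Base

set_option autoImplicit false

/-!
# The Lenstra-Pomerance-Wagstaff law fails for the generic amplitude

For real `β > 0` and a prime `p` let `W β p` be the `p`-rough part (the product, with multiplicity,
of the prime factors larger than `p`) of the largest integer below `β * 2 ^ p`, and let `M β n` be
the number of primes `p ≤ n` with `W β p` prime.  For `β = 1` the number `W β p` is the Mersenne
number `2 ^ p - 1`.  For Lebesgue almost every `β` the law `M β n ~ (e ^ γ / log 2) log n` is known.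

We prove that in the sense of Baire category the law fails, in the strongest possible way.  For
comeagre many `β` the counting function is smaller than `f n` for infinitely many `n`, for every
function `f` tending to infinity; for infinitely many `n` all the primes in `(2 log n, n]` are
exponents; and every `c ∈ [0, ∞)` is a limit point of `M β n / log n`.
-/

namespace Pool.Agent.Results.MP_9b2bac_nt.GenericAmplitude

open Filter Topology Set
open Pool.Agent.R500.MG (W M M_one roughPart roughPart_smooth roughPart_shift block M_mono M_ge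
  exists_prime pi_gt_log)

/-- a Baire category argument -/
lemma generic {Q : ℕ → ℝ → Prop}
    (h : ∀ k : ℕ, ∀ x y : ℝ, 0 < x → x < y → ∃ a b : ℝ, x ≤ a ∧ a < b ∧ b ≤ y ∧
      ∀ β ∈ Ioo a b, ∃ n ≥ k, Q n β) :
    ∀ᶠ β in residual ℝ, 0 < β → ∃ᶠ n in atTop, Q n β := by
  have hk : ∀ k : ℕ, ∀ᶠ β in residual ℝ, 0 < β → ∃ n ≥ k, Q n β := by
    intro k
    set S : Set ℝ := {β | 0 < β → ∃ n ≥ k, Q n β} with hS
    have hd : Dense (interior S) := by
      rw [dense_iff_inter_open]
      intro U hU ⟨z, hz⟩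
      obtain ⟨ε, hε, hball⟩ := Metric.isOpen_iff.1 hU z hz
      rcases lt_or_ge z 0 with h0 | h0
      · refine ⟨z, hz, ?_⟩
        have h1 : Iio (0 : ℝ) ⊆ S := fun w hw hw0 => absurd hw0 (not_lt.2 (le_of_lt hw))
        exact interior_maximal h1 isOpen_Iio h0
      · obtain ⟨a, b, h1, h2, h3, h4⟩ := h k (z + ε / 3) (z + 2 * ε / 3) (by linarith) (by linarith)
        refine ⟨(a + b) / 2, hball ?_, ?_⟩
        · rw [Metric.mem_ball, Real.dist_eq, abs_lt]
          constructor <;> linarith
        · have h5 : Ioo a b ⊆ S := fun w hw _ => h4 w hw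
          exact interior_maximal h5 isOpen_Ioo ⟨by linarith, by linarith⟩
    exact mem_of_superset (residual_of_dense_open isOpen_interior hd) interior_subset
  filter_upwards [eventually_countable_forall.2 hk] with β hβ h0
  rw [frequently_atTop]
  intro k
  obtain ⟨n, hn, hQ⟩ := hβ k h0
  exact ⟨n, hn, hQ⟩

/-- dyadic points with few exponents for a long time -/
lemma low {f : ℕ → ℝ} (hf : Tendsto f atTop atTop) (k : ℕ) (x y : ℝ) (hx : 0 < x) (hxy : x < y) :
    ∃ a b : ℝ, x ≤ a ∧ a < b ∧ b ≤ y ∧ ∀ β ∈ Ioo a b, ∃ n ≥ k, (M β n : ℝ) < f n := by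
  obtain ⟨l, hl⟩ := exists_pow_lt_of_lt_one (sub_pos.2 hxy) (show (1 / 2 : ℝ) < 1 by norm_num)
  have h2l : (0 : ℝ) < 2 ^ l := by positivity
  rw [one_div, inv_pow] at hl
  set m := ⌊x * 2 ^ l⌋₊ + 1 with hm
  have hm1 : x * 2 ^ l < m := by rw [hm]; push_cast; exact Nat.lt_floor_add_one _
  have hm2 : (m : ℝ) ≤ x * 2 ^ l + 1 := by
    rw [hm]; push_cast
    have := Nat.floor_le (show 0 ≤ x * 2 ^ l by positivity)
    linarith
  have ha1 : x < m / 2 ^ l := by rwa [lt_div_iff₀ h2l]
  have ha2 : (m : ℝ) / 2 ^ l < y := by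
    rw [div_lt_iff₀ h2l]
    have : 1 < (y - x) * 2 ^ l := by
      have := mul_lt_mul_of_pos_right hl h2l
      rwa [inv_mul_cancel₀ h2l.ne'] at this
    nlinarith
  set L := max l m + 2 with hL
  obtain ⟨n, hn1, hn2⟩ := ((hf.eventually_gt_atTop (L : ℝ)).and
    (eventually_ge_atTop (max k L))).exists
  have h2n : (0 : ℝ) < 2 ^ n := by positivity
  refine ⟨m / 2 ^ l, min (m / 2 ^ l + 1 / 2 ^ n) y, ha1.le, lt_min (by
    have : (0 : ℝ) < 1 / 2 ^ n := by positivity
    linarith) ha2, min_le_right _ _, fun β hβ => ⟨n, le_of_max_le_left hn2, ?_⟩⟩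
  have hb : β ≤ m / 2 ^ l + 1 / 2 ^ n := (hβ.2.le).trans (min_le_left _ _)
  refine lt_of_le_of_lt ?_ hn1
  have hsub : ((Finset.range (n + 1)).filter (fun p => p.Prime ∧ (W β p).Prime)) ⊆
      Finset.range L := by
    intro p hp
    simp only [Finset.mem_filter, Finset.mem_range] at hp ⊢
    by_contra hcon
    push Not at hcon
    obtain ⟨h1, h2, h3⟩ := hp
    have hlp : l ≤ p := by omega
    have h4 := block hβ.1 hb hlp (by
      rw [one_div, inv_mul_le_iff₀ h2n, mul_one]
      exact pow_le_pow_right₀ (by norm_num) (by omega))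
    have h5 : W β p = 1 := by
      unfold Pool.Agent.R500.MG.W
      rw [h4]
      refine roughPart_smooth fun q hq hd => ?_
      rcases hq.dvd_mul.1 hd with h6 | h6
      · have := Nat.le_of_dvd (by omega) h6
        omega
      · have := (Nat.prime_dvd_prime_iff_eq hq Nat.prime_two).1 (hq.dvd_of_dvd_pow h6)
        omega
    rw [h5] at h3
    exact Nat.not_prime_one h3
  have := Finset.card_le_card hsub
  rw [Finset.card_range] at this
  have h6 : M β n ≤ L := this
  exact_mod_cast h6

/-- all primes in a long interval are exponents -/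
lemma high (k : ℕ) (x y : ℝ) (hx : 0 < x) (hxy : x < y) :
    ∃ a b : ℝ, x ≤ a ∧ a < b ∧ b ≤ y ∧ ∀ β ∈ Ioo a b, ∃ n ≥ k,
      ∀ p : ℕ, p.Prime → 2 * Real.log n < p → p ≤ n → (W β p).Prime := by
  have hT : Tendsto (fun l : ℕ => (2 : ℝ) ^ l) atTop atTop :=
    tendsto_pow_atTop_atTop_of_one_lt (by norm_num)
  have h1 := hT.eventually (exists_prime (x := x) (y := (x + y) / 2) hx (by linarith))
  have h2 : ∀ᶠ l : ℕ in atTop, (k : ℝ) + 3 < x * 2 ^ l :=
    (hT.const_mul_atTop hx).eventually_gt_atTop _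
  have h3 : ∀ᶠ l : ℕ in atTop, -Real.log (x / 2) ≤ (Real.log 2 - 1 / 2) * l :=
    (tendsto_natCast_atTop_atTop.const_mul_atTop (by
      have := Real.log_two_gt_d9
      linarith)).eventually_ge_atTop _
  obtain ⟨l, ⟨m, hm, hm1, hm2⟩, hl2, hl3, hl4⟩ := (h1.and (h2.and (h3.and (eventually_ge_atTop 2)))).exists
  have h2l : (0 : ℝ) < 2 ^ l := by positivity
  have hkm : (k : ℝ) + 3 < m := hl2.trans hm1
  have hkm' : k + 3 < m := by exact_mod_cast hkm
  set n := m - 1 with hn
  have hnr : (n : ℝ) = m - 1 := by rw [hn, Nat.cast_sub (by omega)]; simp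
  have h2n : (0 : ℝ) < 2 ^ n := by positivity
  have ha1 : x < m / 2 ^ l := by rwa [lt_div_iff₀ h2l]
  have ha2 : (m : ℝ) / 2 ^ l < y := by
    rw [div_lt_iff₀ h2l]
    nlinarith
  refine ⟨m / 2 ^ l, min (m / 2 ^ l + 1 / 2 ^ n) y, ha1.le, lt_min (by
    have : (0 : ℝ) < 1 / 2 ^ n := by positivity
    linarith) ha2, min_le_right _ _, fun β hβ => ⟨n, by omega, fun p hp hp1 hp2 => ?_⟩⟩
  have hb : β ≤ m / 2 ^ l + 1 / 2 ^ n := (hβ.2.le).trans (min_le_left _ _)
  have hlog : (l : ℝ) ≤ 2 * Real.log n := by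
    have h5 : x / 2 * 2 ^ l ≤ n := by
      have : (0 : ℝ) ≤ k := Nat.cast_nonneg k
      rw [hnr]
      linarith
    have h6 : Real.log (x / 2 * 2 ^ l) ≤ Real.log n := Real.log_le_log (by positivity) h5
    rw [Real.log_mul (by positivity) (by positivity), Real.log_pow] at h6
    linarith
  have hlp : l ≤ p := by
    have : (l : ℝ) < p := lt_of_le_of_lt hlog hp1
    exact_mod_cast this.le
  have h4 := block hβ.1 hb hlp (by
    rw [one_div, inv_mul_le_iff₀ h2n, mul_one]
    exact pow_le_pow_right₀ (by norm_num) (by omega))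
  have h5 : roughPart 2 m = m := by
    unfold Pool.Agent.R500.MG.roughPart
    rw [Nat.primeFactorsList_prime hm]
    have : 2 < m := by omega
    simp [this]
  have h6 : W β p = m := by
    unfold Pool.Agent.R500.MG.W
    rw [h4]
    exact roughPart_shift le_rfl hp.two_le hm (by omega) h5 _
  rw [h6]
  exact hm

lemma pi_le (k : ℕ) : Nat.primeCounting k ≤ k := by
  rw [Nat.primeCounting, Nat.primeCounting', Nat.count_eq_card_filter_range]
  have hsub : (Finset.range (k + 1)).filter Nat.Prime ⊆ Finset.Icc 1 k := by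
    intro p hp
    rw [Finset.mem_filter, Finset.mem_range] at hp
    rw [Finset.mem_Icc]
    exact ⟨hp.2.one_lt.le, by omega⟩
  have := Finset.card_le_card hsub
  simpa using this

/-- limit points of a sequence with small increments -/
lemma cluster {a : ℕ → ℝ} (hlow : ∀ c : ℝ, 0 < c → ∃ᶠ n in atTop, a n < c)
    (hhigh : ∀ C : ℝ, ∃ᶠ n in atTop, C < a n)
    (hinc : ∀ ε : ℝ, 0 < ε → ∀ᶠ n in atTop, a (n + 1) ≤ a n + ε) {c : ℝ} (hc : 0 ≤ c) :
    MapClusterPt c atTop a := by
  rw [mapClusterPt_iff_frequently]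
  intro s hs
  obtain ⟨ε, hε, hball⟩ := Metric.mem_nhds_iff.1 hs
  rw [frequently_atTop]
  intro N
  obtain ⟨N0, hN0⟩ := eventually_atTop.1 (hinc (ε / 2) (by positivity))
  obtain ⟨n1, hn1, hn1'⟩ := frequently_atTop.1 (hlow (c + ε / 2) (by linarith)) (max N N0)
  classical
  have hex : ∃ n, n1 ≤ n ∧ c ≤ a n := by
    obtain ⟨n, hn, hn'⟩ := frequently_atTop.1 (hhigh c) n1
    exact ⟨n, hn, hn'.le⟩
  set n := Nat.find hex with hn
  obtain ⟨h1, h2⟩ := Nat.find_spec hex
  rw [← hn] at h1 h2
  refine ⟨n, le_trans (le_of_max_le_left hn1) h1, hball ?_⟩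
  rw [Metric.mem_ball, Real.dist_eq, abs_lt]
  refine ⟨by linarith, ?_⟩
  rcases eq_or_lt_of_le h1 with h3 | h3
  · rw [← h3]; linarith
  · have h4 := Nat.find_min hex (m := n - 1) (by omega)
    push Not at h4
    have h5 := h4 (by omega)
    have h6 := hN0 (n - 1) (by omega)
    rw [show n - 1 + 1 = n by omega] at h6
    linarith

lemma M_succ (β : ℝ) (n : ℕ) : M β (n + 1) ≤ M β n + 1 := by
  unfold Pool.Agent.R500.MG.M
  rw [Finset.range_add_one (n := n + 1), Finset.filter_insert]
  split_ifs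
  · exact Finset.card_insert_le _ _
  · omega

/-- **The law fails for the generic amplitude.**  The counting function at `β = 1` is that of the
Mersenne prime exponents; for comeagre many `β` it is below any given function tending to infinity
for infinitely many `n`, all the primes in `(2 log n, n]` are exponents for infinitely many `n`, and
the set of limit points of `M β n / log n` contains `[0, ∞)`. -/
theorem result :
    (∀ n : ℕ, M 1 n = ((Finset.range (n + 1)).filter (fun p => p.Prime ∧ (2 ^ p - 1).Prime)).card) ∧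
    (∀ f : ℕ → ℝ, Tendsto f atTop atTop → ∀ᶠ β : ℝ in residual ℝ, 0 < β →
      ∃ᶠ n : ℕ in atTop, (M β n : ℝ) < f n) ∧
    (∀ᶠ β : ℝ in residual ℝ, 0 < β →
      (∃ᶠ n : ℕ in atTop, ∀ p : ℕ, p.Prime → 2 * Real.log n < p → p ≤ n → (W β p).Prime) ∧
      (∀ ε : ℝ, 0 < ε → ∃ᶠ n : ℕ in atTop, (1 - ε) * Nat.primeCounting n < M β n) ∧
      (∀ c : ℝ, 0 ≤ c → MapClusterPt c atTop (fun n : ℕ => (M β n : ℝ) / Real.log n))) := by
  refine ⟨M_one, fun f hf => generic fun k x y hx hxy => low hf k x y hx hxy, ?_⟩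
  have hlogt : Tendsto (fun n : ℕ => Real.log n) atTop atTop :=
    Real.tendsto_log_atTop.comp tendsto_natCast_atTop_atTop
  have hf : Tendsto (fun n : ℕ => √(Real.log n)) atTop atTop := Real.tendsto_sqrt_atTop.comp hlogt
  filter_upwards [generic (Q := fun n β => (M β n : ℝ) < √(Real.log n))
      (fun k x y hx hxy => low hf k x y hx hxy),
    generic (Q := fun n β => ∀ p : ℕ, p.Prime → 2 * Real.log n < p → p ≤ n → (W β p).Prime)
      (fun k x y hx hxy => high k x y hx hxy)] with β hβ1 hβ2 h0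
  have g1 := hβ1 h0
  have g2 := hβ2 h0
  -- many exponents
  have g3 : ∃ᶠ n : ℕ in atTop, (Nat.primeCounting n : ℝ) - 2 * Real.log n ≤ M β n := by
    refine (g2.and_eventually (eventually_ge_atTop 1)).mono fun n ⟨hn, hn1⟩ => ?_
    have hl : 0 ≤ Real.log n := Real.log_natCast_nonneg n
    have h1 := M_ge (β := β) (k := ⌊2 * Real.log n⌋₊) (n := n) (fun p hp hp1 hp2 =>
      hn p hp ((Nat.floor_lt (by positivity)).1 hp1) hp2)
    have h2 := pi_le ⌊2 * Real.log n⌋₊
    have h3 : ((⌊2 * Real.log n⌋₊ : ℕ) : ℝ) ≤ 2 * Real.log n := Nat.floor_le (by positivity)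
    have h4 : (Nat.primeCounting n : ℝ) ≤ M β n + ⌊2 * Real.log n⌋₊ := by
      exact_mod_cast h1.trans (Nat.add_le_add_left h2 _)
    linarith
  refine ⟨g2, fun ε hε => ?_, fun c hc => ?_⟩
  · refine (g3.and_eventually (pi_gt_log (2 / ε))).mono fun n ⟨hn1, hn2⟩ => ?_
    have h1 : 2 / ε * Real.log n * ε < Nat.primeCounting n * ε := mul_lt_mul_of_pos_right hn2 hε
    have h2 : 2 / ε * Real.log n * ε = 2 * Real.log n := by field_simp
    linarith
  · refine cluster (fun c hc => ?_) (fun C => ?_) (fun ε hε => ?_) hc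
    · have h1 : ∀ᶠ n : ℕ in atTop, (1 / c) < √(Real.log n) := hf.eventually_gt_atTop _
      refine (g1.and_eventually (h1.and (hlogt.eventually_gt_atTop 0))).mono fun n ⟨a1, a2, a3⟩ => ?_
      rw [div_lt_iff₀ a3]
      have a4 : √(Real.log n) * √(Real.log n) = Real.log n := Real.mul_self_sqrt a3.le
      have a5 : 0 < √(Real.log n) := Real.sqrt_pos.2 a3
      rw [div_lt_iff₀ hc] at a2
      have a6 : 1 * √(Real.log n) < √(Real.log n) * c * √(Real.log n) :=
        mul_lt_mul_of_pos_right a2 a5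
      have a7 : √(Real.log n) * c * √(Real.log n) = c * Real.log n := by
        rw [← a4]; ring_nf; rw [Real.sq_sqrt (by positivity)]
      linarith
    · refine (g3.and_eventually ((pi_gt_log (C + 2)).and (hlogt.eventually_gt_atTop 0))).mono
        fun n ⟨a1, a2, a3⟩ => ?_
      rw [lt_div_iff₀ a3]
      linarith
    · have h1 : ∀ᶠ n : ℕ in atTop, 1 / ε < Real.log n := hlogt.eventually_gt_atTop _
      filter_upwards [h1, hlogt.eventually_gt_atTop 0, eventually_ge_atTop 1] with n a1 a2 a3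
      have hn0 : (0 : ℝ) < n := by exact_mod_cast a3
      have h2 : Real.log n ≤ Real.log ((n + 1 : ℕ) : ℝ) := Real.log_le_log hn0 (by push_cast; linarith)
      have h3 : (M β (n + 1) : ℝ) ≤ M β n + 1 := by exact_mod_cast M_succ β n
      have h4 : (0 : ℝ) ≤ M β n := Nat.cast_nonneg _
      calc (M β (n + 1) : ℝ) / Real.log ((n + 1 : ℕ) : ℝ) ≤ (M β n + 1) / Real.log n := by gcongr
        _ = M β n / Real.log n + 1 / Real.log n := by ring
        _ ≤ M β n / Real.log n + ε := by
            have : 1 / Real.log n ≤ ε := by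
              rw [div_le_iff₀ a2]
              rw [div_lt_iff₀ hε] at a1
              linarith
            linarith

end Pool.Agent.Results.MP_9b2bac_nt.GenericAmplitude
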