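import Mathlib
import Pool.Agent.R303.TA.Sys

set_option autoImplicit false

/-!
# The Lenstra-Pomerance-Wagstaff law for 2-adic units: error term, sets of exponents, multipliers

For a 2-adic integer `α` and a prime `p` let `W α p` be the `p`-rough part (the product, with
multiplicity, of the prime factors larger than `p`) of the residue of `α` modulo `2 ^ p` in
`[0, 2 ^ p)`, the integer formed by the last `p` binary digits of `α`.  For `α = -1` this is the
Mersenne number `2 ^ p - 1` itself.  For a set `S` let `M S α n` be the number of primes `p ≤ n` in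
`S` with `W α p` prime and `V S n` the sum of `log p / p` over these `p`.  For almost every 2-adic
unit `α` the numbers `M S (k * α) n`, `k` odd, follow the law with a square root error term.
-/

namespace Pool.Agent.Results.MP_9b2bac_nt.TwoAdicErrorTerm

open Filter Topology MeasureTheory Asymptotics

/-- The product, with multiplicity, of the prime factors of `m` that are larger than `p`. -/
def roughPart (p m : ℕ) : ℕ := (m.primeFactorsList.filter (fun r => p < r)).prod

/-- The `p`-rough part of the residue of the 2-adic integer `α` modulo `2 ^ p`. -/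
noncomputable def W (α : ℤ_[2]) (p : ℕ) : ℕ := roughPart p (PadicInt.toZModPow p α).val

open Classical in
/-- The number of primes `p ≤ n` in the set `S` for which `W α p` is prime. -/
noncomputable def M (S : Set ℕ) (α : ℤ_[2]) (n : ℕ) : ℕ :=
  ((Finset.range (n + 1)).filter (fun p => p.Prime ∧ p ∈ S ∧ (W α p).Prime)).card

open Classical in
/-- The sum of `log p / p` over the primes `p ≤ n` in the set `S`. -/
noncomputable def V (S : Set ℕ) (n : ℕ) : ℝ :=
  ∑ p ∈ (Finset.range (n + 1)).filter (fun p => p.Prime ∧ p ∈ S), Real.log p / p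

lemma V_eq (S : Set ℕ) (n : ℕ) : V S n = Pool.Agent.TH888.R.VS S n := by
  classical
  unfold V Pool.Agent.TH888.R.VS
  rw [Finset.sum_filter]
  refine Finset.sum_congr rfl fun p _ => ?_
  by_cases h : p.Prime ∧ p ∈ S
  · rw [if_pos h, if_pos ⟨h.2, h.1⟩]
    rfl
  · rw [if_neg h, if_neg fun h1 => h ⟨h1.2, h1.1⟩]

lemma W_neg_one {p : ℕ} (hp : p.Prime) : W (-1) p = 2 ^ p - 1 := by
  have h1 : (PadicInt.toZModPow p (-1 : ℤ_[2])).val = 2 ^ p - 1 := by
    rw [map_neg, map_one]
    have h2 : 1 ≤ 2 ^ p := Nat.one_le_two_pow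
    have h3 : (-1 : ZMod (2 ^ p)) = ((2 ^ p - 1 : ℕ) : ZMod (2 ^ p)) := by
      rw [Nat.cast_sub h2, ZMod.natCast_self, Nat.cast_one, zero_sub]
    rw [h3, ZMod.val_natCast, Nat.mod_eq_of_lt (by omega)]
  have h2 : W (-1) p = Pool.Agent.H305R2.roughPart p (PadicInt.toZModPow p (-1 : ℤ_[2])).val := rfl
  rw [h2, h1, Pool.Agent.W66L.rough_mersenne hp]

lemma M_eq (S : Set ℕ) (α : ℤ_[2]) (n : ℕ) :
    M S α n = Pool.Agent.TH888.R.cS S (fun p => Pool.Agent.W66L.res 2 p α) n := by
  classical
  unfold M Pool.Agent.TH888.R.cS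
  rfl

/-- the pointwise law for almost every unit -/
lemma pt_units [MeasurableSpace ℤ_[2]] [BorelSpace ℤ_[2]] (μ : Measure ℤ_[2]) [μ.IsAddHaarMeasure]
    (S : Set ℕ) : ∀ᵐ α : ℤ_[2] ∂μ, IsUnit α →
      Pool.Agent.TH888.R.Pt (fun p => Pool.Agent.W66L.res 2 p α)
        (Real.exp Real.eulerMascheroniConstant / Real.log 2) S := by
  have h := Pool.Agent.R303.TA.pt_full (μ := μ) le_rfl (Pool.Agent.W66L.full_padic 2 μ) S
  filter_upwards [h] with α hα hu
  have hc : (Pool.Agent.W66L.res 2 1 α).Coprime 2 := by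
    unfold Pool.Agent.W66L.res
    have h1 : IsUnit (PadicInt.toZModPow 1 α) := hu.map _
    have h2 := ZMod.isUnit_iff_coprime (PadicInt.toZModPow 1 α).val (2 ^ 1)
    rw [ZMod.natCast_zmod_val] at h2
    simpa using h2.1 h1
  exact_mod_cast hα hc

lemma isUnit_odd {k : ℤ} (hk : Odd k) : IsUnit (k : ℤ_[2]) := by
  rw [PadicInt.isUnit_iff]
  have h := PadicInt.norm_int_lt_one_iff_dvd (p := 2) k
  have h1 : ‖(k : ℤ_[2])‖ ≤ 1 := PadicInt.norm_le_one _
  rcases h1.lt_or_eq with h2 | h2
  · exfalso
    have h3 : (2 : ℤ) ∣ k := by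
      have := h.1 h2
      exact_mod_cast this
    rw [← Int.not_even_iff_odd] at hk
    exact hk (even_iff_two_dvd.2 h3)
  · exact h2

/-- the same for all odd multiples of a unit simultaneously -/
lemma pt_mult [MeasurableSpace ℤ_[2]] [BorelSpace ℤ_[2]] (μ : Measure ℤ_[2]) [μ.IsAddHaarMeasure]
    (S : Set ℕ) : ∀ᵐ α : ℤ_[2] ∂μ, IsUnit α → ∀ k : ℤ, Odd k →
      Pool.Agent.TH888.R.Pt (fun p => Pool.Agent.W66L.res 2 p (k * α))
        (Real.exp Real.eulerMascheroniConstant / Real.log 2) S := by
  have h : ∀ k : ℤ, ∀ᵐ α : ℤ_[2] ∂μ, IsUnit α → Odd k →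
      Pool.Agent.TH888.R.Pt (fun p => Pool.Agent.W66L.res 2 p (k * α))
        (Real.exp Real.eulerMascheroniConstant / Real.log 2) S := by
    intro k
    by_cases hk : Odd k
    · obtain ⟨u, hu⟩ := isUnit_odd hk
      have hc : Continuous (fun x : ℤ_[2] => (k : ℤ_[2]) * x) := continuous_const.mul continuous_id
      have hcs : Continuous (fun x : ℤ_[2] => ((u⁻¹ : ℤ_[2]ˣ) : ℤ_[2]) * x) :=
        continuous_const.mul continuous_id
      let e : ℤ_[2] ≃+ ℤ_[2] :=
        { toFun := fun x => (k : ℤ_[2]) * x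
          invFun := fun x => ((u⁻¹ : ℤ_[2]ˣ) : ℤ_[2]) * x
          left_inv := fun x => by
            simp only
            rw [← hu, ← mul_assoc, Units.inv_mul, one_mul]
          right_inv := fun x => by
            simp only
            rw [← hu, ← mul_assoc, Units.mul_inv, one_mul]
          map_add' := fun x y => mul_add _ _ _ }
      haveI : (Measure.map e μ).IsAddHaarMeasure := e.isAddHaarMeasure_map μ hc hcs
      have h1 := pt_units (Measure.map e μ) S
      have h2 := ae_of_ae_map hc.measurable.aemeasurable h1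
      filter_upwards [h2] with α hα hαu _
      exact hα ((isUnit_odd hk).mul hαu)
    · exact Eventually.of_forall fun α _ h => absurd h hk
  filter_upwards [ae_all_iff.2 h] with α hα hu k hk
  exact hα k hu hk

/-- At `α = -1` the counting function is that of the Mersenne primes.  For almost every 2-adic unit
`α` and all odd integers `k` the integers formed by the last `p` binary digits of `k * α` follow the
law of Lenstra, Pomerance and Wagstaff with a square root error term; for every set `S` of exponents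
the same holds along `S` if `∑_{p ∈ S} log p / p = ∞`, and otherwise only finitely many `p ∈ S` give
a prime. -/
theorem result :
    (∀ n : ℕ, M Set.univ (-1) n =
      ((Finset.range (n + 1)).filter (fun p => p.Prime ∧ (2 ^ p - 1).Prime)).card) ∧
    (∀ [MeasurableSpace ℤ_[2]] [BorelSpace ℤ_[2]] (μ : Measure ℤ_[2]) [μ.IsAddHaarMeasure],
      (∀ᵐ α : ℤ_[2] ∂μ, IsUnit α → ∀ k : ℤ, Odd k →
        (fun n : ℕ => (M Set.univ (k * α) n : ℝ) -
          Real.exp Real.eulerMascheroniConstant / Real.log 2 * Real.log n) =O[atTop]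
        (fun n : ℕ => Real.sqrt (Real.log n) * (Real.log (Real.log n)) ^ ((5 : ℝ) / 2))) ∧
      (∀ S : Set ℕ, Tendsto (V S) atTop atTop → ∀ᵐ α : ℤ_[2] ∂μ, IsUnit α → ∀ k : ℤ, Odd k →
        {p : ℕ | p.Prime ∧ p ∈ S ∧ (W (k * α) p).Prime}.Infinite ∧
        (fun n : ℕ => (M S (k * α) n : ℝ) -
          Real.exp Real.eulerMascheroniConstant / Real.log 2 * V S n) =O[atTop]
        (fun n : ℕ => Real.sqrt (V S n * Real.log (Real.log n)) *
          (Real.log (V S n * Real.log (Real.log n))) ^ 2)) ∧
      (∀ S : Set ℕ, ¬ Tendsto (V S) atTop atTop → ∀ᵐ α : ℤ_[2] ∂μ, IsUnit α → ∀ k : ℤ, Odd k →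
        {p : ℕ | p.Prime ∧ p ∈ S ∧ (W (k * α) p).Prime}.Finite)) := by
  have hV : ∀ S, V S = Pool.Agent.TH888.R.VS S := fun S => funext fun n => V_eq S n
  refine ⟨fun n => ?_, ?_⟩
  · unfold M
    congr 1
    ext p
    simp only [Finset.mem_filter, Set.mem_univ, true_and]
    exact and_congr_right fun _ => and_congr_right fun hp => by rw [W_neg_one hp]
  · intro _ _ μ _
    refine ⟨?_, fun S hS => ?_, fun S hS => ?_⟩
    · filter_upwards [pt_mult μ Set.univ] with α hα hu k hk
      obtain ⟨B, hB, h⟩ := (hα hu k hk).law Pool.Agent.TH888.R.VS_univ_tendsto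
      simp only [M_eq]
      exact Pool.Agent.TH888.R.bigO_all hB h
    · rw [hV] at hS ⊢
      filter_upwards [pt_mult μ S] with α hα hu k hk
      refine ⟨(hα hu k hk).inf hS, ?_⟩
      obtain ⟨B, hB, h⟩ := (hα hu k hk).law hS
      simp only [M_eq]
      exact Pool.Agent.TH888.R.bigO_set hB hS h
    · rw [hV] at hS
      filter_upwards [pt_mult μ S] with α hα hu k hk
      exact (hα hu k hk).fin hS

end Pool.Agent.Results.MP_9b2bac_nt.TwoAdicErrorTerm
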